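import Pool.Agent.Helper96.VF.GoalsL

/-!
# Project VF: counting quotients in the intersections (`DBL`)
-/

set_option autoImplicit false

namespace Pool.Agent.Helper88.VF

open Pool.Agent.Helper96.VF

/-- `Nat.log 3 n ≤ log n`. -/
theorem natLog3_le (n : ℕ) (hn : 1 ≤ n) : (Nat.log 3 n : ℝ) ≤ Real.log n := by
  have h1 : (3 : ℝ) ^ (Nat.log 3 n) ≤ n := by
    have := Nat.pow_log_le_self 3 (show n ≠ 0 by omega)
    exact_mod_cast this
  have h2 : Real.log ((3 : ℝ) ^ (Nat.log 3 n)) ≤ Real.log n :=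
    Real.log_le_log (by positivity) h1
  rw [Real.log_pow] at h2
  have h3 : (1 : ℝ) ≤ Real.log 3 := by
    rw [Real.le_log_iff_exp_le (by norm_num)]
    have := Real.exp_one_lt_d9
    linarith
  have h4 : (Nat.log 3 n : ℝ) * 1 ≤ (Nat.log 3 n : ℝ) * Real.log 3 :=
    mul_le_mul_of_nonneg_left h3 (Nat.cast_nonneg _)
  linarith

/-- **DBL**, from `CNT`, `DBLA`, `DBLB`. -/
theorem gDBL (hCNT : CNT) (hA : DBLA) (hB : DBLB) : DBL := by
  intro p q r s hP
  obtain ⟨hS, hA'⟩ := hA p q r s hP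
  refine ⟨hS, 2 + (s : ℝ) / (2 * r), ?_⟩
  intro n hn
  obtain ⟨P, hP1, hP2, hP3⟩ := hA' n hn
  have hc := hB p q r s n P hP hn hP1
  rw [hc]
  obtain ⟨hp, hpq, hq4, hr, hrs, hs3, hsq⟩ := hP
  have hn0 : (0 : ℝ) < n := by exact_mod_cast hn
  have hr0 : (0 : ℝ) < r := by exact_mod_cast hr
  have h1 : |∑ x ∈ P, (((Cop (n / al p r x)).card : ℝ) - ((Cop (n / be q s x)).card : ℝ)) -
      (n : ℝ) / 3 * ∑ x ∈ P, (1 / (al p r x : ℝ) - 1 / (be q s x : ℝ))| ≤ 2 * P.card := by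
    rw [Finset.mul_sum, ← Finset.sum_sub_distrib]
    refine (Finset.abs_sum_le_sum_abs _ _).trans ?_
    have key : ∀ x ∈ P, |((Cop (n / al p r x)).card : ℝ) - ((Cop (n / be q s x)).card : ℝ) -
        (n : ℝ) / 3 * (1 / (al p r x : ℝ) - 1 / (be q s x : ℝ))| ≤ 2 := by
      intro x hx
      have hx' := (hP1 x).1 hx
      have ha1 : 1 ≤ al p r x := by
        have e1 : p * 4 ^ x.1 ≤ al p r x := le_max_left _ _
        have e2 : 0 < p * 4 ^ x.1 := by positivity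
        omega
      have hb1 : 1 ≤ be q s x := by omega
      have c1 := hCNT n (al p r x) ha1
      have c2 := hCNT n (be q s x) hb1
      have e : ((Cop (n / al p r x)).card : ℝ) - ((Cop (n / be q s x)).card : ℝ) -
          (n : ℝ) / 3 * (1 / (al p r x : ℝ) - 1 / (be q s x : ℝ)) =
          (((Cop (n / al p r x)).card : ℝ) - (n : ℝ) / (3 * al p r x)) -
            (((Cop (n / be q s x)).card : ℝ) - (n : ℝ) / (3 * be q s x)) := by
        have ha0 : (al p r x : ℝ) ≠ 0 := by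
          have : al p r x ≠ 0 := by omega
          exact_mod_cast this
        have hb0 : (be q s x : ℝ) ≠ 0 := by
          have : be q s x ≠ 0 := by omega
          exact_mod_cast this
        field_simp
        ring
      rw [e]
      rw [abs_le] at c1 c2 ⊢
      constructor <;> linarith [c1.1, c1.2, c2.1, c2.2]
    calc _ ≤ ∑ x ∈ P, (2 : ℝ) := Finset.sum_le_sum key
      _ = 2 * P.card := by rw [Finset.sum_const, nsmul_eq_mul]; ring
  have h2 : |(n : ℝ) / 3 * ∑ x ∈ P, (1 / (al p r x : ℝ) - 1 / (be q s x : ℝ)) -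
      (n : ℝ) / 3 * ∑' x, mm p q r s x| ≤ (s : ℝ) / (2 * r) := by
    rw [← mul_sub, abs_mul, abs_of_pos (by positivity : (0 : ℝ) < (n : ℝ) / 3)]
    have h3 : |∑ x ∈ P, (1 / (al p r x : ℝ) - 1 / (be q s x : ℝ)) - ∑' x, mm p q r s x| ≤
        3 * s / (2 * r * n) := by
      rw [abs_sub_comm]; exact hP3
    calc (n : ℝ) / 3 * |∑ x ∈ P, (1 / (al p r x : ℝ) - 1 / (be q s x : ℝ)) -
            ∑' x, mm p q r s x| ≤ (n : ℝ) / 3 * (3 * s / (2 * r * n)) :=
          mul_le_mul_of_nonneg_left h3 (by positivity)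
      _ = (s : ℝ) / (2 * r) := by field_simp
  have h4 : (P.card : ℝ) ≤ 1 + Real.log n := by
    have a1 : (P.card : ℝ) ≤ Nat.log 3 n + 1 := by exact_mod_cast hP2
    have a2 := natLog3_le n hn
    linarith
  have h5 : 0 ≤ Real.log n := Real.log_nonneg (by exact_mod_cast hn)
  have h6 : 0 ≤ (s : ℝ) / (2 * r) := by positivity
  calc |∑ x ∈ P, (((Cop (n / al p r x)).card : ℝ) - ((Cop (n / be q s x)).card : ℝ)) -
        (n : ℝ) / 3 * ∑' x, mm p q r s x|
      ≤ |∑ x ∈ P, (((Cop (n / al p r x)).card : ℝ) - ((Cop (n / be q s x)).card : ℝ)) -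
          (n : ℝ) / 3 * ∑ x ∈ P, (1 / (al p r x : ℝ) - 1 / (be q s x : ℝ))| +
        |(n : ℝ) / 3 * ∑ x ∈ P, (1 / (al p r x : ℝ) - 1 / (be q s x : ℝ)) -
          (n : ℝ) / 3 * ∑' x, mm p q r s x| := abs_sub_le _ _ _
    _ ≤ 2 * P.card + (s : ℝ) / (2 * r) := add_le_add h1 h2
    _ ≤ (2 + (s : ℝ) / (2 * r)) * (1 + Real.log n) := by nlinarith

end Pool.Agent.Helper88.VF
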