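import Pool.Agent.Helper96.VF.GoalsL

/-!
# Project VF: numerical value of the constant (`NUM`)
-/

set_option autoImplicit false

namespace Pool.Agent.Helper88.VF.NUM

open Pool.Agent.Helper96.VF

theorem k1 : kk 1 = 1 := by
  unfold kk
  exact Nat.log_eq_of_pow_le_of_lt_pow (by norm_num) (by norm_num)

theorem k2 : kk 2 = 3 := by
  unfold kk
  exact Nat.log_eq_of_pow_le_of_lt_pow (by norm_num) (by norm_num)

theorem k3 : kk 3 = 4 := by
  unfold kk
  exact Nat.log_eq_of_pow_le_of_lt_pow (by norm_num) (by norm_num)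

theorem k4 : kk 4 = 6 := by
  unfold kk
  exact Nat.log_eq_of_pow_le_of_lt_pow (by norm_num) (by norm_num)

theorem k5 : kk 5 = 7 := by
  unfold kk
  exact Nat.log_eq_of_pow_le_of_lt_pow (by norm_num) (by norm_num)

theorem k6 : kk 6 = 9 := by
  unfold kk
  exact Nat.log_eq_of_pow_le_of_lt_pow (by norm_num) (by norm_num)

theorem k7 : kk 7 = 11 := by
  unfold kk
  exact Nat.log_eq_of_pow_le_of_lt_pow (by norm_num) (by norm_num)

theorem k8 : kk 8 = 12 := by
  unfold kk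
  exact Nat.log_eq_of_pow_le_of_lt_pow (by norm_num) (by norm_num)

theorem k9 : kk 9 = 14 := by
  unfold kk
  exact Nat.log_eq_of_pow_le_of_lt_pow (by norm_num) (by norm_num)

theorem k10 : kk 10 = 15 := by
  unfold kk
  exact Nat.log_eq_of_pow_le_of_lt_pow (by norm_num) (by norm_num)

theorem k11 : kk 11 = 17 := by
  unfold kk
  exact Nat.log_eq_of_pow_le_of_lt_pow (by norm_num) (by norm_num)

theorem k12 : kk 12 = 19 := by
  unfold kk
  exact Nat.log_eq_of_pow_le_of_lt_pow (by norm_num) (by norm_num)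

theorem k13 : kk 13 = 20 := by
  unfold kk
  exact Nat.log_eq_of_pow_le_of_lt_pow (by norm_num) (by norm_num)

theorem k14 : kk 14 = 22 := by
  unfold kk
  exact Nat.log_eq_of_pow_le_of_lt_pow (by norm_num) (by norm_num)

theorem k15 : kk 15 = 23 := by
  unfold kk
  exact Nat.log_eq_of_pow_le_of_lt_pow (by norm_num) (by norm_num)

theorem k16 : kk 16 = 25 := by
  unfold kk
  exact Nat.log_eq_of_pow_le_of_lt_pow (by norm_num) (by norm_num)

theorem k17 : kk 17 = 26 := by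
  unfold kk
  exact Nat.log_eq_of_pow_le_of_lt_pow (by norm_num) (by norm_num)

theorem k18 : kk 18 = 28 := by
  unfold kk
  exact Nat.log_eq_of_pow_le_of_lt_pow (by norm_num) (by norm_num)

theorem k19 : kk 19 = 30 := by
  unfold kk
  exact Nat.log_eq_of_pow_le_of_lt_pow (by norm_num) (by norm_num)

theorem k20 : kk 20 = 31 := by
  unfold kk
  exact Nat.log_eq_of_pow_le_of_lt_pow (by norm_num) (by norm_num)

theorem k21 : kk 21 = 33 := by
  unfold kk
  exact Nat.log_eq_of_pow_le_of_lt_pow (by norm_num) (by norm_num)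

theorem k22 : kk 22 = 34 := by
  unfold kk
  exact Nat.log_eq_of_pow_le_of_lt_pow (by norm_num) (by norm_num)

theorem w1 : wb 1 = 0 := by
  rw [wb, k1, if_neg (by decide)]

theorem w2 : wb 2 = 0 := by
  rw [wb, k2, if_neg (by decide)]

theorem w3 : wb 3 = 1 / (10 * 3 ^ 3) - 1 / (20 * 2 ^ 4) := by
  rw [wb, k3, if_pos (by decide), if_pos (by norm_num)]

theorem w4 : wb 4 = 0 := by
  rw [wb, k4, if_pos (by decide), if_neg (by norm_num), if_neg (by norm_num), if_neg (by norm_num)]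

theorem w5 : wb 5 = 0 := by
  rw [wb, k5, if_neg (by decide)]

theorem w6 : wb 6 = 0 := by
  rw [wb, k6, if_neg (by decide)]

theorem w7 : wb 7 = 0 := by
  rw [wb, k7, if_neg (by decide)]

theorem w8 : wb 8 = 1 / (60 * 3 ^ 8) := by
  rw [wb, k8, if_pos (by decide), if_neg (by norm_num), if_pos (by norm_num)]

theorem w9 : wb 9 = 0 := by
  rw [wb, k9, if_pos (by decide), if_neg (by norm_num), if_neg (by norm_num), if_neg (by norm_num)]

theorem w10 : wb 10 = 0 := by
  rw [wb, k10, if_neg (by decide)]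

theorem w11 : wb 11 = 0 := by
  rw [wb, k11, if_neg (by decide)]

theorem w12 : wb 12 = 0 := by
  rw [wb, k12, if_neg (by decide)]

theorem w13 : wb 13 = 1 / (16 * 2 ^ 20) - 1 / (12 * 3 ^ 13) := by
  rw [wb, k13, if_pos (by decide), if_neg (by norm_num), if_neg (by norm_num), if_pos (by norm_num)]

theorem w14 : wb 14 = 0 := by
  rw [wb, k14, if_pos (by decide), if_neg (by norm_num), if_neg (by norm_num), if_neg (by norm_num)]

theorem w15 : wb 15 = 0 := by
  rw [wb, k15, if_neg (by decide)]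

theorem w16 : wb 16 = 0 := by
  rw [wb, k16, if_neg (by decide)]

theorem w17 : wb 17 = 1 / (10 * 3 ^ 17) - 1 / (20 * 2 ^ 26) := by
  rw [wb, k17, if_pos (by decide), if_pos (by norm_num)]

theorem w18 : wb 18 = 1 / (16 * 2 ^ 28) - 1 / (12 * 3 ^ 18) := by
  rw [wb, k18, if_pos (by decide), if_neg (by norm_num), if_neg (by norm_num), if_pos (by norm_num)]

theorem w19 : wb 19 = 0 := by
  rw [wb, k19, if_pos (by decide), if_neg (by norm_num), if_neg (by norm_num), if_neg (by norm_num)]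

theorem w20 : wb 20 = 0 := by
  rw [wb, k20, if_neg (by decide)]

theorem w21 : wb 21 = 0 := by
  rw [wb, k21, if_neg (by decide)]

theorem w22 : wb 22 = 1 / (10 * 3 ^ 22) - 1 / (20 * 2 ^ 34) := by
  rw [wb, k22, if_pos (by decide), if_pos (by norm_num)]

theorem kk_spec (b : ℕ) : (2 : ℝ) ^ kk b ≤ 3 ^ b ∧ (3 : ℝ) ^ b < 2 * 2 ^ kk b := by
  have h1 : 2 ^ kk b ≤ 3 ^ b := Nat.pow_log_le_self 2 (by positivity)
  have h2 : 3 ^ b < 2 ^ (kk b + 1) := Nat.lt_pow_succ_log_self (by norm_num) _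
  rw [pow_succ] at h2
  constructor
  · exact_mod_cast h1
  · have h3 : 3 ^ b < 2 * 2 ^ kk b := by omega
    exact_mod_cast h3

theorem vbound (b : ℕ) : ‖(-1 : ℝ) ^ kk b * (2 / 2 ^ kk b - 3 / 3 ^ b)‖ ≤ 1 / 3 ^ b := by
  obtain ⟨h1, h2⟩ := kk_spec b
  have p1 : (0 : ℝ) < 2 ^ kk b := by positivity
  have p2 : (0 : ℝ) < 3 ^ b := by positivity
  rw [norm_mul, norm_pow, norm_neg, norm_one, one_pow, one_mul, Real.norm_eq_abs, abs_le]
  generalize (2 : ℝ) ^ kk b = Q at *
  generalize (3 : ℝ) ^ b = P at *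
  have e1 : 2 / P ≤ 2 / Q := by
    rw [div_le_div_iff₀ p2 p1]; linarith
  have e2 : 2 / Q ≤ 4 / P := by
    rw [div_le_div_iff₀ p1 p2]; linarith
  have e3 : 3 / P = 3 * (1 / P) := by ring
  have e4 : 2 / P = 2 * (1 / P) := by ring
  have e5 : 4 / P = 4 * (1 / P) := by ring
  constructor <;> linarith

theorem wbound (b : ℕ) : 0 ≤ wb b ∧ wb b ≤ 1 / (60 * 3 ^ b) := by
  have p1 : (0 : ℝ) < 2 ^ kk b := by positivity
  have p2 : (0 : ℝ) < 3 ^ b := by positivity
  unfold wb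
  split_ifs with c1 c2 c3 c4
  · have c2' : (5 : ℝ) * 2 ^ kk b ≤ 3 * 3 ^ b := by exact_mod_cast c2
    obtain ⟨h1, h2⟩ := kk_spec b
    generalize (2 : ℝ) ^ kk b = Q at *
    generalize (3 : ℝ) ^ b = P at *
    have e1 : 1 / (20 * Q) ≤ 1 / (10 * P) := by
      rw [div_le_div_iff₀ (by positivity) (by positivity)]; linarith
    have e2 : 1 / (12 * P) ≤ 1 / (20 * Q) := by
      rw [div_le_div_iff₀ (by positivity) (by positivity)]; linarith
    have e3 : 1 / (10 * P) = 1 / (60 * P) + 1 / (12 * P) := by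
      field_simp; ring
    constructor <;> linarith
  · constructor
    · positivity
    · exact le_refl _
  · have c3' : (5 : ℝ) * 3 ^ b ≤ 8 * 2 ^ kk b := by exact_mod_cast not_lt.1 c3
    have c4' : (4 : ℝ) * 2 ^ kk b < 3 * 3 ^ b := by exact_mod_cast c4
    generalize (2 : ℝ) ^ kk b = Q at *
    generalize (3 : ℝ) ^ b = P at *
    have e1 : 1 / (12 * P) ≤ 1 / (16 * Q) := by
      rw [div_le_div_iff₀ (by positivity) (by positivity)]; linarith
    have e2 : 1 / (16 * Q) ≤ 1 / (10 * P) := by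
      rw [div_le_div_iff₀ (by positivity) (by positivity)]; linarith
    have e3 : 1 / (10 * P) = 1 / (60 * P) + 1 / (12 * P) := by
      field_simp; ring
    constructor <;> linarith
  · exact ⟨le_refl _, by positivity⟩
  · exact ⟨le_refl _, by positivity⟩

theorem geo (c : ℝ) : HasSum (fun b : ℕ => c * (1 / 3 ^ (b + 22 + 1))) (c * (1 / (2 * 3 ^ 22))) := by
  have h := hasSum_geometric_of_lt_one (r := (1 / 3 : ℝ)) (by norm_num) (by norm_num)
  have h2 := h.mul_left (c * (1 / 3 ^ 23))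
  have e1 : (fun b : ℕ => c * (1 / 3 ^ (b + 22 + 1))) =
      fun b : ℕ => c * (1 / 3 ^ 23) * (1 / 3 : ℝ) ^ b := by
    funext b
    rw [one_div_pow, show b + 22 + 1 = b + 23 by rfl, pow_add]
    field_simp
  have e2 : c * (1 / (2 * 3 ^ 22)) = c * (1 / 3 ^ 23) * (1 - 1 / 3 : ℝ)⁻¹ := by
    rw [mul_assoc]
    congr 1
    norm_num
  rw [e1, e2]
  exact h2

theorem vsum : ∑ b ∈ Finset.range 22, (-1 : ℝ) ^ kk (b + 1) * (2 / 2 ^ kk (b + 1) - 3 / 3 ^ (b + 1)) =
    7974865953244779685 / 89853749822987698176 := by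
  simp only [Finset.sum_range_succ, Finset.sum_range_zero]
  norm_num [k1, k2, k3, k4, k5, k6, k7, k8, k9, k10, k11, k12, k13, k14, k15, k16, k17, k18, k19,
    k20, k21, k22]

theorem wsum : ∑ b ∈ Finset.range 22, wb (b + 1) = 6267313606823003831 / 10782449978758523781120 := by
  simp only [Finset.sum_range_succ, Finset.sum_range_zero]
  norm_num [w1, w2, w3, w4, w5, w6, w7, w8, w9, w10, w11, w12, w13, w14, w15, w16, w17, w18, w19,
    w20, w21, w22]

/-- **NUM**, from `SER`. -/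
theorem gNUM (hSER : SER) : NUM := by
  obtain ⟨h1, -, h3, h4⟩ := hSER
  have hV := h3.sum_add_tsum_nat_add 22
  have hW := h4.sum_add_tsum_nat_add 22
  rw [vsum] at hV
  rw [wsum] at hW
  have tV : ‖∑' b : ℕ, (-1 : ℝ) ^ kk (b + 22 + 1) * (2 / 2 ^ kk (b + 22 + 1) - 3 / 3 ^ (b + 22 + 1))‖ ≤
      1 * (1 / (2 * 3 ^ 22)) :=
    tsum_of_norm_bounded (geo 1) (fun b => by rw [one_mul]; exact vbound _)
  have tW : ‖∑' b : ℕ, wb (b + 22 + 1)‖ ≤ 1 / 60 * (1 / (2 * 3 ^ 22)) := by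
    refine tsum_of_norm_bounded (geo (1 / 60)) (fun b => ?_)
    obtain ⟨q1, q2⟩ := wbound (b + 22 + 1)
    rw [Real.norm_eq_abs, abs_of_nonneg q1]
    refine q2.trans (le_of_eq ?_)
    field_simp
  rw [Real.norm_eq_abs, abs_le] at tV tW
  unfold NUM
  rw [h1]
  unfold VV WW
  rw [← hV, ← hW]
  generalize (∑' b : ℕ, (-1 : ℝ) ^ kk (b + 22 + 1) *
    (2 / 2 ^ kk (b + 22 + 1) - 3 / 3 ^ (b + 22 + 1))) = X at *
  generalize (∑' b : ℕ, wb (b + 22 + 1)) = Y at *
  norm_num at tV tW ⊢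
  constructor <;> linarith [tV.1, tV.2, tW.1, tW.2]

end Pool.Agent.Helper88.VF.NUM
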