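import Pool.Agent.Helper96.VF.Goals

/-!
# Project VF: coordinates (`CRD`) and the type in coordinates (`TYC`)
-/

set_option autoImplicit false

namespace Pool.Agent.Helper88.VF

open Pool.Agent.Helper96.VF

/-- The power of `k` with `k^i m ≤ n < k^(i+1) m` is unique. -/
theorem uq (k n m i j : ℕ) (hk : 1 < k) (hm : 0 < m) (h1 : k ^ i * m ≤ n)
    (h2 : n < k ^ (i + 1) * m) (h3 : k ^ j * m ≤ n) (h4 : n < k ^ (j + 1) * m) : i = j := by
  have a1 : k ^ i < k ^ (j + 1) := lt_of_mul_lt_mul_right (lt_of_le_of_lt h1 h4) hm.le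
  have a2 : k ^ j < k ^ (i + 1) := lt_of_mul_lt_mul_right (lt_of_le_of_lt h3 h2) hm.le
  have b1 : i < j + 1 := (Nat.pow_lt_pow_iff_right hk).1 a1
  have b2 : j < i + 1 := (Nat.pow_lt_pow_iff_right hk).1 a2
  omega

/-- **CRD.** -/
theorem gCRD : CRD := by
  intro n m hm hmn
  have hy : n / m ≠ 0 := by
    have := Nat.div_pos hmn hm
    omega
  have e4 : 4 ^ (Nat.log 4 (n / m)) * m ≤ n :=
    (Nat.le_div_iff_mul_le hm).1 (Nat.pow_log_le_self 4 hy)
  have l4 : n < 4 ^ (Nat.log 4 (n / m) + 1) * m :=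
    (Nat.div_lt_iff_lt_mul hm).1 (Nat.lt_pow_succ_log_self (by norm_num) _)
  have e3 : 3 ^ (Nat.log 3 (n / m)) * m ≤ n :=
    (Nat.le_div_iff_mul_le hm).1 (Nat.pow_log_le_self 3 hy)
  have l3 : n < 3 ^ (Nat.log 3 (n / m) + 1) * m :=
    (Nat.div_lt_iff_lt_mul hm).1 (Nat.lt_pow_succ_log_self (by norm_num) _)
  refine ⟨4 ^ (Nat.log 4 (n / m)) * m, 3 ^ (Nat.log 3 (n / m)) * m, ⟨_, rfl⟩, ⟨_, rfl⟩, e4, ?_,
    e3, ?_⟩
  · calc n < 4 ^ (Nat.log 4 (n / m) + 1) * m := l4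
      _ = 4 * (4 ^ (Nat.log 4 (n / m)) * m) := by ring
  · calc n < 3 ^ (Nat.log 3 (n / m) + 1) * m := l3
      _ = 3 * (3 ^ (Nat.log 3 (n / m)) * m) := by ring

/-- **TYC.** -/
theorem gTYC : TYC := by
  rintro n m p q hm ⟨⟨j, hp⟩, ⟨b, hq⟩, hp1, hp2, hq1, hq2⟩
  -- uniqueness for powers of four and of three
  have u4 : ∀ i : ℕ, 4 ^ i * m ≤ n → n < 4 * (4 ^ i * m) → 4 ^ i * m = p := by
    intro i h1 h2
    have hij : i = j := by
      refine uq 4 n m i j (by norm_num) hm h1 ?_ ?_ ?_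
      · rw [pow_succ]; linarith
      · rw [← hp]; exact hp1
      · rw [pow_succ]; linarith
    rw [hij, hp]
  have u3 : ∀ i : ℕ, 3 ^ i * m ≤ n → n < 3 * (3 ^ i * m) → 3 ^ i * m = q := by
    intro i h1 h2
    have hij : i = b := by
      refine uq 3 n m i b (by norm_num) hm h1 ?_ ?_ ?_
      · rw [pow_succ]; linarith
      · rw [← hq]; exact hq1
      · rw [pow_succ]; linarith
    rw [hij, hq]
  have hOd : Od n m ↔ 2 * p ≤ n := by
    constructor
    · rintro ⟨i, h1, h2⟩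
      have e1 : 2 * 4 ^ i * m = 2 * (4 ^ i * m) := by ring
      have e2 : 4 * 4 ^ i * m = 4 * (4 ^ i * m) := by ring
      rw [e1] at h1
      rw [e2] at h2
      have := u4 i (by omega) h2
      rw [this] at h1
      exact h1
    · intro h
      refine ⟨j, ?_, ?_⟩
      · have e1 : 2 * 4 ^ j * m = 2 * (4 ^ j * m) := by ring
        rw [e1, ← hp]; exact h
      · have e2 : 4 * 4 ^ j * m = 4 * (4 ^ j * m) := by ring
        rw [e2, ← hp]; exact hp2
  have hKa : Ka n m ↔ (16 * p ≤ 5 * n ∧ 2 * q ≤ n ∧ 5 * n < 12 * q) := by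
    constructor
    · rintro ⟨⟨i, h1, h2⟩, ⟨c, h3, h4⟩⟩
      have e1 : 16 * 4 ^ i * m = 16 * (4 ^ i * m) := by ring
      have e2 : 20 * 4 ^ i * m = 20 * (4 ^ i * m) := by ring
      have e3 : 2 * 3 ^ c * m = 2 * (3 ^ c * m) := by ring
      have e4 : 12 * 3 ^ c * m = 12 * (3 ^ c * m) := by ring
      rw [e1] at h1
      rw [e2] at h2
      rw [e3] at h3
      rw [e4] at h4
      have w4 := u4 i (by omega) (by omega)
      have w3 := u3 c (by omega) (by omega)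
      rw [w4] at h1
      rw [w3] at h3 h4
      exact ⟨h1, h3, h4⟩
    · rintro ⟨h1, h3, h4⟩
      refine ⟨⟨j, ?_, ?_⟩, ⟨b, ?_, ?_⟩⟩
      · have e1 : 16 * 4 ^ j * m = 16 * (4 ^ j * m) := by ring
        rw [e1, ← hp]; exact h1
      · have e2 : 20 * 4 ^ j * m = 20 * (4 ^ j * m) := by ring
        rw [e2, ← hp]; omega
      · have e3 : 2 * 3 ^ b * m = 2 * (3 ^ b * m) := by ring
        rw [e3, ← hq]; exact h3
      · have e4 : 12 * 3 ^ b * m = 12 * (3 ^ b * m) := by ring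
        rw [e4, ← hq]; exact h4
  have hEx : Ex n m ↔ (2 * p ≤ n ∧ 2 * n < 5 * p ∧ 5 * q ≤ 3 * n ∧ n < 2 * q) := by
    constructor
    · rintro ⟨⟨i, h1, h2⟩, ⟨c, h3, h4⟩⟩
      have e1 : 2 * 4 ^ i * m = 2 * (4 ^ i * m) := by ring
      have e2 : 5 * 4 ^ i * m = 5 * (4 ^ i * m) := by ring
      have e3 : 5 * 3 ^ c * m = 5 * (3 ^ c * m) := by ring
      have e4 : 2 * 3 ^ c * m = 2 * (3 ^ c * m) := by ring
      rw [e1] at h1
      rw [e2] at h2
      rw [e3] at h3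
      rw [e4] at h4
      have w4 := u4 i (by omega) (by omega)
      have w3 := u3 c (by omega) (by omega)
      rw [w4] at h1 h2
      rw [w3] at h3 h4
      exact ⟨h1, h2, h3, h4⟩
    · rintro ⟨h1, h2, h3, h4⟩
      refine ⟨⟨j, ?_, ?_⟩, ⟨b, ?_, ?_⟩⟩
      · have e1 : 2 * 4 ^ j * m = 2 * (4 ^ j * m) := by ring
        rw [e1, ← hp]; exact h1
      · have e2 : 5 * 4 ^ j * m = 5 * (4 ^ j * m) := by ring
        rw [e2, ← hp]; exact h2
      · have e3 : 5 * 3 ^ b * m = 5 * (3 ^ b * m) := by ring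
        rw [e3, ← hq]; exact h3
      · have e4 : 2 * 3 ^ b * m = 2 * (3 ^ b * m) := by ring
        rw [e4, ← hq]; exact h4
  constructor
  · unfold Ty TC
    rw [hOd, hKa, hEx]
    constructor
    · rintro ⟨h1, h2, h3⟩
      exact ⟨h1, h2, fun h => h3 ⟨h1, h.1, h.2.1, h.2.2⟩⟩
    · rintro ⟨h1, h2, h3⟩
      exact ⟨h1, h2, fun h => h3 ⟨h.2.1, h.2.2.1, h.2.2.2⟩⟩
  · rintro ⟨m0, hm0⟩
    rw [← hKa]
    have hpos : 0 < m0 := by omega
    have hdiv : m / 5 = m0 := by omega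
    rw [hdiv]
    have A : ∀ c : ℕ, (c ≤ n / m0 ↔ c * m ≤ 5 * n) := by
      intro c
      rw [Nat.le_div_iff_mul_le hpos, hm0]
      have e : c * (5 * m0) = 5 * (c * m0) := by ring
      rw [e]
      omega
    have B : ∀ c : ℕ, (n / m0 < c ↔ 5 * n < c * m) := by
      intro c
      rw [Nat.div_lt_iff_lt_mul hpos, hm0]
      have e : c * (5 * m0) = 5 * (c * m0) := by ring
      rw [e]
      omega
    unfold Kap Ka
    refine and_congr ?_ ?_
    · refine exists_congr fun i => ?_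
      rw [A, B]
    · refine exists_congr fun i => ?_
      rw [A, B]
      have e : 10 * 3 ^ i * m = 5 * (2 * 3 ^ i * m) := by ring
      rw [e]
      constructor
      · rintro ⟨h1, h2⟩
        exact ⟨by omega, h2⟩
      · rintro ⟨h1, h2⟩
        exact ⟨by omega, h2⟩

end Pool.Agent.Helper88.VF
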